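import Pool.Agent.Y215.CT.Ana2

/-!
# Project CT: the pairs, also for `g = 3 j`
-/

set_option autoImplicit false

namespace Pool.Agent.Y215.CT

open Filter Finset Pool.Agent.Y726.CT
open scoped Classical


/-- few pairs of the form `n = t ^ 3 - 3 t m ^ j` -/
theorem card_bad {R j : ℕ} (hR : 0 < R) (S : Finset (ℕ × ℕ))
    (hS : ∀ x ∈ S, 1 < x.1 ∧ x.1 < 9 * R ^ 2 ∧ 4 * x.2 ^ 2 < x.1 ^ (3 * j) ∧
      ∃ t : ℤ, (x.2 : ℤ) = t ^ 3 - 3 * t * (x.1 : ℤ) ^ j) :
    S.card ≤ 9 * R ^ 2 * (4 * (3 * R) ^ j) := by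
  have h : ∀ x : ℕ × ℕ, ∃ t : ℤ, x ∈ S → (x.2 : ℤ) = t ^ 3 - 3 * t * (x.1 : ℤ) ^ j := by
    intro x
    by_cases hx : x ∈ S
    · obtain ⟨-, -, -, t, ht⟩ := hS x hx
      exact ⟨t, fun _ => ht⟩
    · exact ⟨0, fun h => absurd h hx⟩
  choose t ht using h
  have hsub : S.image (fun x => (x.1, t x)) ⊆
      (range (9 * R ^ 2)) ×ˢ (Ico (-(2 * (3 * R : ℤ) ^ j)) (2 * (3 * R : ℤ) ^ j)) := by
    intro y hy
    obtain ⟨x, hx, rfl⟩ := mem_image.1 hy
    obtain ⟨h1, h2, h3, -⟩ := hS x hx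
    have h4 := ht x hx
    rw [mem_product, mem_range, mem_Ico]
    have hb : |t x| < 2 * (3 * R : ℤ) ^ j := by
      by_contra hcon
      push Not at hcon
      obtain ⟨m, hm⟩ : ∃ m : ℤ, m = (x.1 : ℤ) ^ j := ⟨_, rfl⟩
      obtain ⟨A, hA⟩ : ∃ A : ℤ, A = (3 * R : ℤ) ^ j := ⟨_, rfl⟩
      obtain ⟨u, hu⟩ : ∃ u : ℤ, u = |t x| := ⟨_, rfl⟩
      have hm0 : 0 < m := by
        rw [hm]
        have : (0 : ℤ) < x.1 := by omega
        positivity
      have hA0 : 0 < A := by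
        rw [hA]
        have : (0 : ℤ) < R := by exact_mod_cast hR
        positivity
      have hmA : m ≤ A ^ 2 := by
        rw [hm, hA, ← pow_mul, mul_comm j 2, pow_mul]
        have : (x.1 : ℤ) ≤ (3 * R : ℤ) ^ 2 := by
          have : x.1 ≤ 9 * R ^ 2 := h2.le
          have h5 : ((x.1 : ℕ) : ℤ) ≤ ((9 * R ^ 2 : ℕ) : ℤ) := by exact_mod_cast this
          push_cast at h5
          linarith
        gcongr
      rw [← hA, ← hu] at hcon
      have hn : (x.2 : ℤ) ^ 2 = u ^ 2 * (u ^ 2 - 3 * m) ^ 2 := by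
        have : u ^ 2 = t x ^ 2 := by rw [hu, sq_abs]
        rw [this, h4, ← hm]
        ring
      have h5 : 4 * (x.2 : ℤ) ^ 2 < m ^ 3 := by
        have h6 : (4 * (x.2 : ℤ) ^ 2) < (x.1 : ℤ) ^ (3 * j) := by exact_mod_cast h3
        rw [hm, ← pow_mul, mul_comm j 3]
        exact h6
      have h6 : 4 * A ^ 2 ≤ u ^ 2 := by nlinarith
      have h7 : m ≤ u ^ 2 - 3 * m := by nlinarith
      have h8 : m ^ 2 ≤ (u ^ 2 - 3 * m) ^ 2 := by nlinarith
      have h9 : 4 * m ≤ u ^ 2 := by linarith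
      have h10 : 4 * m * m ^ 2 ≤ u ^ 2 * (u ^ 2 - 3 * m) ^ 2 := by
        apply mul_le_mul h9 h8 (by positivity) (by positivity)
      nlinarith [pow_pos hm0 3]
    rw [abs_lt] at hb
    exact ⟨h2, hb.1.le, hb.2⟩
  have hinj : Set.InjOn (fun x : ℕ × ℕ => (x.1, t x)) S := by
    intro x hx y hy hxy
    rw [Prod.mk.injEq] at hxy
    have h1 := ht x hx
    have h2 := ht y hy
    rw [hxy.1, hxy.2, ← h2] at h1
    exact Prod.ext hxy.1 (by exact_mod_cast h1)
  rw [← card_image_of_injOn hinj]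
  refine (card_le_card hsub).trans ?_
  rw [card_product, card_range, Int.card_Ico]
  apply Nat.mul_le_mul_left
  have : (2 * (3 * R : ℤ) ^ j - -(2 * (3 * R : ℤ) ^ j)) = ((4 * (3 * R) ^ j : ℕ) : ℤ) := by
    push_cast
    ring
  rw [this, Int.toNat_natCast]

theorem t_ANB (hcore : S_CORE) (hprm : S_PRM) : S_ANB := by
  intro g j hodd hg hj hgj
  obtain ⟨c, hc, X0, hX⟩ := ana2 hcore hprm g hodd hg
  rcases hgj with hgj | hgj
  · refine ⟨c, hc, X0, fun X hXX => ?_⟩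
    obtain ⟨R, S, -, -, -, h1, h2⟩ := hX X hXX
    refine ⟨S, h1, fun x hx => ?_⟩
    obtain ⟨a1, -, a3, a4, a5, a6, d, q, b1, b2, b3, b4, b5, b6⟩ := h2 x hx
    refine ⟨a1, a3, a4, a5, d, q, b1, b2, b4, b5, b6, Or.inl ?_⟩
    have h3 := (a6 j hgj).trans b3
    have h4 : 16 * x.1 ^ j ≤ d := by exact_mod_cast h3
    have h5 : 0 < x.1 ^ j := by
      have : 0 < x.1 := by omega
      positivity
    omega
  · subst hgj
    have hlog := (ev_pow (2 * (36 * 3 ^ j) / c) 3 (r := 1 / 6) (by norm_num))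
    obtain ⟨X1, hX1⟩ := eventually_atTop.1 (hlog.and (eventually_ge_atTop (1 : ℝ)))
    refine ⟨c / 2, by positivity, max X0 X1, fun X hXX => ?_⟩
    obtain ⟨R, S, hR, hl, hS, h1, h2⟩ := hX X ((le_max_left _ _).trans hXX)
    obtain ⟨hl3, hX1'⟩ := hX1 X ((le_max_right _ _).trans hXX)
    have hXp : 0 < X := by linarith
    have hl0 : 0 < Real.log X := by linarith
    set bad := S.filter (fun x => ∃ t : ℤ, (x.2 : ℤ) = t ^ 3 - 3 * t * (x.1 : ℤ) ^ j) with hbad
    have hcard : (bad.card : ℝ) ≤ S.card / 2 := by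
      rcases Nat.eq_zero_or_pos R with hR0 | hR0
      · have : bad = ∅ := by
          rw [hbad, filter_eq_empty_iff]
          intro x hx
          have := (h2 x hx).2.1
          rw [hR0] at this
          simp at this
        rw [this, card_empty, Nat.cast_zero]
        positivity
      · have h3 : bad.card ≤ 9 * R ^ 2 * (4 * (3 * R) ^ j) := by
          apply card_bad hR0
          intro x hx
          rw [hbad, mem_filter] at hx
          obtain ⟨a1, a2, a3, a4, a5, -⟩ := h2 x hx.1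
          exact ⟨a1, a2, a5, hx.2⟩
        have h4 : (bad.card : ℝ) ≤ 36 * 3 ^ j * (R : ℝ) ^ 2 * (R : ℝ) ^ j := by
          have h5 : (bad.card : ℝ) ≤ ((9 * R ^ 2 * (4 * (3 * R) ^ j) : ℕ) : ℝ) := by
            exact_mod_cast h3
          refine h5.trans (le_of_eq ?_)
          push_cast
          rw [mul_pow]
          ring
        have h5 : (R : ℝ) ^ j ≤ X ^ (1 / 3 : ℝ) := by
          have h6 : ((R : ℝ) ^ j) ^ 3 ≤ X := by
            rw [← pow_mul, mul_comm j 3]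
            exact hR
          calc (R : ℝ) ^ j = (((R : ℝ) ^ j) ^ 3) ^ (1 / 3 : ℝ) := by
                rw [← Real.rpow_natCast ((R : ℝ) ^ j) 3, ← Real.rpow_mul (by positivity)]
                norm_num
            _ ≤ X ^ (1 / 3 : ℝ) := by gcongr
        have h6 : 2 * (36 * 3 ^ j) * Real.log X ^ 3 ≤ c * X ^ (1 / 6 : ℝ) := by
          have := mul_le_mul_of_nonneg_left hl3 hc.le
          calc 2 * (36 * 3 ^ j) * Real.log X ^ 3 = c * (2 * (36 * 3 ^ j) / c * Real.log X ^ 3) := by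
                field_simp
            _ ≤ _ := this
        have h7 : (2 * (36 * 3 ^ j * (R : ℝ) ^ 2 * (R : ℝ) ^ j)) ≤ S.card := by
          refine le_trans ?_ hS
          rw [le_div_iff₀ (by positivity)]
          calc 2 * (36 * 3 ^ j * (R : ℝ) ^ 2 * (R : ℝ) ^ j) * Real.log X ^ 3
              = (2 * (36 * 3 ^ j) * Real.log X ^ 3) * ((R : ℝ) ^ 2 * (R : ℝ) ^ j) := by ring
            _ ≤ (c * X ^ (1 / 6 : ℝ)) * ((R : ℝ) ^ 2 * X ^ (1 / 3 : ℝ)) := by gcongr
            _ = c * (R : ℝ) ^ 2 * (X ^ (1 / 6 : ℝ) * X ^ (1 / 3 : ℝ)) := by ring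
            _ = c * (R : ℝ) ^ 2 * Real.sqrt X := by
                rw [← Real.rpow_add hXp, Real.sqrt_eq_rpow]
                norm_num
        linarith
    refine ⟨S \ bad, ?_, fun x hx => ?_⟩
    · have h3 : (S.card : ℝ) ≤ (S \ bad).card + bad.card := by
        have : S.card ≤ (S \ bad).card + bad.card := by
          have := card_sdiff_add_card_eq_card (filter_subset
            (fun x : ℕ × ℕ => ∃ t : ℤ, (x.2 : ℤ) = t ^ 3 - 3 * t * (x.1 : ℤ) ^ j) S)
          rw [← hbad] at this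
          omega
        exact_mod_cast this
      have h4 : c / 2 * X ^ (1 / 2 + min (1 / 4) (2 / ((3 * j : ℕ) : ℝ)) : ℝ) / Real.log X ^ 5 =
          (c * X ^ (1 / 2 + min (1 / 4) (2 / ((3 * j : ℕ) : ℝ)) : ℝ) / Real.log X ^ 5) / 2 := by
        ring
      rw [h4]
      linarith
    · rw [Finset.mem_sdiff, hbad, mem_filter, not_and] at hx
      obtain ⟨a1, -, a3, a4, a5, a6, d, q, b1, b2, b3, b4, b5, b6⟩ := h2 x hx.1
      refine ⟨a1, a3, a4, a5, d, q, b1, b2, b4, b5, b6, Or.inr ⟨rfl, fun t ht => ?_⟩⟩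
      exact hx.2 hx.1 ⟨t, ht⟩

end Pool.Agent.Y215.CT
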