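import Pool.Agent.Y215.CT.Asm

set_option autoImplicit false
set_option maxHeartbeats 1000000

/-! # Sums over imaginary quadratic fields -/

namespace Pool.Agent.Y215.CT

open NumberField Finset
open scoped Classical

/-- The imaginary quadratic fields (in `ℂ`) with discriminant of absolute value at most `X`. -/
def ImQuad (X : ℝ) : Set (IntermediateField ℚ ℂ) :=
  {K | ∃ _ : NumberField K, Module.finrank ℚ K = 2 ∧ (∃ x : K, (x : ℂ).im ≠ 0) ∧
    |((discr K : ℤ) : ℝ)| ≤ X}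

theorem finite_imQuad (X : ℝ) : (ImQuad X).Finite := by
  have h := NumberField.finite_of_discr_bdd ℂ ⌊X⌋₊
  refine (h.image Subtype.val).subset ?_
  rintro K ⟨i, h2, -, h3⟩
  have hfd : FiniteDimensional ℚ K := i.to_finiteDimensional
  refine ⟨⟨K, hfd⟩, ?_, rfl⟩
  have h4 : |discr K| ≤ (⌊X⌋₊ : ℤ) := by
    have h5 : ((|discr K| : ℤ) : ℝ) ≤ X := by
      rw [Int.cast_abs]
      exact h3
    have h0 : 0 ≤ |discr K| := abs_nonneg _
    obtain ⟨n, hn⟩ := Int.eq_ofNat_of_zero_le h0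
    rw [hn] at h5 ⊢
    have : n ≤ ⌊X⌋₊ := Nat.le_floor (by exact_mod_cast h5)
    exact_mod_cast this
  exact h4

/-- the lower bound for sums over imaginary quadratic fields -/
theorem low (hF : S_FLD) (hC : S_CLS) (hA : S_ANB) (g j : ℕ) (hg : Odd g) (hg5 : 5 ≤ g) (hj : 0 < j)
    (hgj : 5 * j ≤ g ∨ g = 3 * j) : ∃ c : ℝ, 0 < c ∧ ∃ X0 : ℝ,
      ∀ X : ℝ, X0 ≤ X → ∀ F : IntermediateField ℚ ℂ → ℝ,
        (∀ K ∈ ImQuad X, (Nat.card {c : ClassGroup (𝓞 K) // c ^ g = 1 ∧ c ^ j ≠ 1} : ℝ) ≤ F K) →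
        c * X ^ (1 / 2 + min (1 / 4) (2 / (g : ℝ)) : ℝ) / Real.log X ^ 5 ≤
          ∑ᶠ K ∈ ImQuad X, F K := by
  obtain ⟨K, hK, h⟩ := mom hF hC hA
  obtain ⟨c, hc, X0, hX⟩ := h g j hg hg5 hj hgj
  refine ⟨c, hc, X0, fun X hXX F hFK => ?_⟩
  obtain ⟨T, hT, hT2⟩ := hX X hXX
  refine hT2.trans ?_
  have hmem : ∀ d ∈ T, K d ∈ ImQuad X := by
    intro d hd
    obtain ⟨h1, h2, h3⟩ := hT d hd
    obtain ⟨i, a, b, e⟩ := hK d h1 h2
    refine ⟨i, a, e, ?_⟩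
    rw [b]
    push_cast
    rw [abs_neg, Nat.abs_cast]
    exact h3.le
  have hinj : Set.InjOn K T := by
    intro d hd d' hd' he
    obtain ⟨h1, h2, h3⟩ := hT d hd
    obtain ⟨i, a, b, e⟩ := hK d h1 h2
    obtain ⟨h1', h2', h3'⟩ := hT d' hd'
    obtain ⟨i', a', b', e'⟩ := hK d' h1' h2'
    have key : ∀ L L' : IntermediateField ℚ ℂ, L = L' → ∀ (i : NumberField L) (i' : NumberField L'),
        @discr L _ i = @discr L' _ i' := by
      rintro L L' rfl i i'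
      rfl
    have := key _ _ he i i'
    rw [b, b'] at this
    omega
  have h0 : ∀ L ∈ ImQuad X, 0 ≤ F L := fun L hL => (Nat.cast_nonneg _).trans (hFK L hL)
  have hfin := finite_imQuad X
  rw [finsum_mem_eq_finite_toFinset_sum _ hfin]
  have hsub : T.image K ⊆ hfin.toFinset := by
    intro L hL
    obtain ⟨d, hd, rfl⟩ := mem_image.1 hL
    exact hfin.mem_toFinset.2 (hmem d hd)
  refine le_trans ?_ (sum_le_sum_of_subset_of_nonneg hsub
    (fun L hL _ => h0 L (hfin.mem_toFinset.1 hL)))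
  rw [sum_image hinj, Nat.cast_sum]
  exact sum_le_sum fun d hd => hFK _ (hmem d hd)

/-- `p`-torsion -/
theorem torsion (hF : S_FLD) (hC : S_CLS) (hA : S_ANB) (p : ℕ) (hp : p.Prime) (hp5 : 5 ≤ p) :
    ∃ c : ℝ, 0 < c ∧ ∃ X0 : ℝ, ∀ X : ℝ, X0 ≤ X →
        c * X ^ (1 / 2 + min (1 / 4) (2 / (p : ℝ)) : ℝ) / Real.log X ^ 5 ≤
          ∑ᶠ K ∈ ImQuad X, ((Nat.card {x : ClassGroup (𝓞 K) // x ^ p = 1} : ℝ) - 1) := by
  obtain ⟨c, hc, X0, h⟩ := low hF hC hA p 1 (hp.odd_of_ne_two (by omega)) hp5 one_pos (Or.inl (by omega))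
  refine ⟨c, hc, X0, fun X hX => h X hX _ ?_⟩
  rintro K ⟨i, -⟩
  have h1 : Nat.card {x : ClassGroup (𝓞 K) // x ^ p = 1 ∧ x ^ 1 ≠ 1} + 1 ≤
      Nat.card {x : ClassGroup (𝓞 K) // x ^ p = 1} := by
    have e1 := Nat.card_congr (Equiv.refl {x : ClassGroup (𝓞 K) // x ^ p = 1})
    have : Finite (ClassGroup (𝓞 K)) := inferInstance
    rw [Nat.card_eq_fintype_card, Nat.card_eq_fintype_card, Fintype.card_subtype,
      Fintype.card_subtype]
    have hlt : (univ.filter fun x : ClassGroup (𝓞 K) => x ^ p = 1 ∧ x ^ 1 ≠ 1) ⊂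
        univ.filter fun x : ClassGroup (𝓞 K) => x ^ p = 1 := by
      rw [Finset.ssubset_iff]
      refine ⟨1, by simp, ?_⟩
      intro x hx
      rw [mem_insert] at hx
      rcases hx with rfl | hx
      · simp
      · rw [mem_filter] at hx ⊢
        exact ⟨hx.1, hx.2.1⟩
    exact card_lt_card hlt
  have h2 : ((Nat.card {x : ClassGroup (𝓞 K) // x ^ p = 1 ∧ x ^ 1 ≠ 1} : ℕ) : ℝ) + 1 ≤
      Nat.card {x : ClassGroup (𝓞 K) // x ^ p = 1} := by exact_mod_cast h1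
  linarith

/-- surjections onto cyclic groups -/
theorem moments (hF : S_FLD) (hC : S_CLS) (hS : S_SUR) (hA : S_ANB) (p k : ℕ) (hp : p.Prime)
    (hp2 : p ≠ 2) (hk : 0 < k) (hpk : 5 ≤ p ^ k) :
    ∃ c : ℝ, 0 < c ∧ ∃ X0 : ℝ, ∀ X : ℝ, X0 ≤ X →
        c * X ^ (1 / 2 + min (1 / 4) (2 / ((p ^ k : ℕ) : ℝ)) : ℝ) / Real.log X ^ 5 ≤
          ∑ᶠ K ∈ ImQuad X, (Nat.card {φ : (Subgroup.closure
            {x : ClassGroup (𝓞 K) | ∃ n : ℕ, x ^ p ^ n = 1}) →* Multiplicative (ZMod (p ^ k)) //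
            Function.Surjective φ} : ℝ) := by
  have hodd : Odd p := hp.odd_of_ne_two hp2
  have hpow : p ^ k = p * p ^ (k - 1) := by
    rw [← pow_succ']
    congr 1
    omega
  have hgj : 5 * p ^ (k - 1) ≤ p ^ k ∨ p ^ k = 3 * p ^ (k - 1) := by
    have h3 : 3 ≤ p := by
      have := hp.two_le
      omega
    rcases h3.eq_or_lt with h3 | h3
    · right
      rw [hpow, ← h3]
    · left
      have h5 : 5 ≤ p := by
        rcases Nat.lt_or_ge p 5 with h | h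
        · exfalso
          have : p = 4 := by omega
          subst this
          exact absurd hp (by norm_num)
        · exact h
      rw [hpow]
      exact Nat.mul_le_mul_right _ h5
  obtain ⟨c, hc, X0, h⟩ := low hF hC hA (p ^ k) (p ^ (k - 1)) hodd.pow hpk (pow_pos hp.pos _) hgj
  refine ⟨c, hc, X0, fun X hX => h X hX _ ?_⟩
  rintro K ⟨i, -⟩
  have : Finite (ClassGroup (𝓞 K)) := inferInstance
  exact Nat.cast_le.2 (hS (ClassGroup (𝓞 K)) p k hp hk)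

end Pool.Agent.Y215.CT
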