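import Pool.Agent.Y215.CT.Stm
import Mathlib.NumberTheory.Chebyshev

set_option autoImplicit false
set_option maxHeartbeats 4000000

/-! # Primes in intervals -/

namespace Pool.Agent.Y215.CT

open Finset Filter
open scoped Classical

theorem sum_union_le'' {ι : Type*} [DecidableEq ι] (f : ι → ℝ) (hf : ∀ i, 0 ≤ f i) (s t : Finset ι) :
    ∑ i ∈ s ∪ t, f i ≤ ∑ i ∈ s, f i + ∑ i ∈ t, f i := by
  rw [← sum_union_inter]
  have := sum_nonneg (s := s ∩ t) (fun i _ => hf i)
  linarith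

/-- many primes in `(X, 3X]` -/
theorem many_primes : ∀ᶠ X : ℝ in atTop, X / (4 * Real.log X) ≤
    (((Icc 1 ⌊3 * X⌋₊).filter (fun p : ℕ => p.Prime ∧ X < p)).card : ℝ) := by
  have h2 : Tendsto (fun X : ℝ => Real.log X / X ^ (1 / 2 : ℝ)) atTop (nhds 0) :=
    (isLittleO_log_rpow_atTop (by norm_num)).tendsto_div_nhds_zero
  filter_upwards [eventually_ge_atTop 100, h2.eventually (gt_mem_nhds (show (0 : ℝ) < 1 / 1000 by norm_num)),
    Real.tendsto_log_atTop.eventually_ge_atTop 100] with X hX h3 hL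
  have hX0 : 0 < X := by linarith
  have hs : X ^ (1 / 2 : ℝ) = √X := (Real.sqrt_eq_rpow X).symm
  rw [hs] at h3
  have hs0 : 0 < √X := Real.sqrt_pos.2 hX0
  rw [div_lt_iff₀ hs0] at h3
  have hss : √X * √X = X := Real.mul_self_sqrt hX0.le
  have hs1 : 10 ≤ √X := by
    by_contra hcon
    push Not at hcon
    nlinarith
  have hlog3 : Real.log (3 * X) ≤ 2 * Real.log X := by
    rw [Real.log_mul (by norm_num) hX0.ne']
    have : Real.log 3 ≤ 2 := by
      have := Real.log_le_sub_one_of_pos (show (0 : ℝ) < 3 by norm_num)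
      linarith
    linarith
  have hlog4 : Real.log (3 * X + 2) ≤ 2 * Real.log X := by
    have h4 : 3 * X + 2 ≤ X ^ 2 := by nlinarith
    have h5 := Real.log_le_log (by positivity) h4
    rw [Real.log_pow] at h5
    exact_mod_cast h5
  have hs3 : √(3 * X) ≤ 2 * √X := by
    rw [Real.sqrt_le_left (by positivity)]
    nlinarith
  have ha := Chebyshev.theta_ge' (x := 3 * X) (by linarith)
  have hb := Chebyshev.theta_le_log4_mul_x (x := X) hX0.le
  have hl2 : 0.69 ≤ Real.log 2 := by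
    have := Real.log_two_gt_d9
    linarith
  have hl2' : Real.log 2 ≤ 1 := by
    have := Real.log_two_lt_d9
    linarith
  have hl4 : Real.log 4 = 2 * Real.log 2 := by
    rw [show (4 : ℝ) = 2 ^ 2 by norm_num, Real.log_pow]
    norm_num
  have hL0 : 0 < Real.log X := by linarith
  have hdiff : X / 2 ≤ Chebyshev.theta (3 * X) - Chebyshev.theta X := by
    rw [hl4] at hb
    have e1 : 2 * √(3 * X) * Real.log (3 * X) ≤ 2 * (2 * √X) * (2 * Real.log X) := by
      have : 0 ≤ Real.log (3 * X) := Real.log_nonneg (by linarith)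
      gcongr
    have e2 : 2 * (2 * √X) * (2 * Real.log X) ≤ X / 100 := by
      have : √X * Real.log X ≤ √X * (1 / 1000 * √X) := mul_le_mul_of_nonneg_left h3.le hs0.le
      nlinarith
    have e3 : 2 * Real.log X ≤ X / 100 := by nlinarith
    nlinarith
  set Q : Finset ℕ := (Icc 1 ⌊3 * X⌋₊).filter (fun p : ℕ => p.Prime ∧ X < p) with hQ
  have hup : Chebyshev.theta (3 * X) ≤ Chebyshev.theta X + Q.card * (2 * Real.log X) := by
    rw [Chebyshev.theta_eq_sum_Icc, Chebyshev.theta_eq_sum_Icc]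
    have hsub : (Icc 0 ⌊3 * X⌋₊).filter Nat.Prime ⊆ (Icc 0 ⌊X⌋₊).filter Nat.Prime ∪ Q := by
      intro p hp
      rw [mem_filter, mem_Icc] at hp
      rw [mem_union, hQ, mem_filter, mem_filter, mem_Icc, mem_Icc]
      by_cases h : X < p
      · right
        exact ⟨⟨hp.2.one_lt.le, hp.1.2⟩, hp.2, h⟩
      · left
        exact ⟨⟨Nat.zero_le _, Nat.le_floor (not_lt.1 h)⟩, hp.2⟩
    have hlog : ∀ i : ℕ, 0 ≤ Real.log (i : ℝ) := fun i => Real.log_natCast_nonneg i
    refine (sum_le_sum_of_subset_of_nonneg hsub (fun i _ _ => hlog i)).trans ?_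
    refine (sum_union_le'' (fun i : ℕ => Real.log (i : ℝ)) hlog _ _).trans ?_
    apply add_le_add_right
    rw [← nsmul_eq_mul]
    apply sum_le_card_nsmul
    intro p hp
    rw [hQ, mem_filter, mem_Icc] at hp
    have h4 : (p : ℝ) ≤ 3 * X := (Nat.le_floor_iff (by positivity)).1 hp.1.2
    exact (Real.log_le_log (by exact_mod_cast hp.2.1.pos) h4).trans hlog3
  rw [div_le_iff₀ (by positivity)]
  have : X / 2 ≤ Q.card * (2 * Real.log X) := by linarith
  nlinarith

theorem t_PRM : S_PRM := by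
  have h1 := (tendsto_natCast_atTop_atTop (R := ℝ)).eventually many_primes
  obtain ⟨R0, h2⟩ := eventually_atTop.1 h1
  refine ⟨max R0 2, fun R hR => ?_⟩
  have h3 := h2 R ((le_max_left _ _).trans hR)
  have hR2 : 2 ≤ R := (le_max_right _ _).trans hR
  have hlog : 0 < Real.log (R : ℝ) := Real.log_pos (by exact_mod_cast hR2)
  have h4 : (Icc 1 ⌊3 * (R : ℝ)⌋₊).filter (fun p : ℕ => p.Prime ∧ (R : ℝ) < p) ⊆
      (Ioc R (3 * R)).filter Nat.Prime := by
    intro p hp
    rw [mem_filter, mem_Icc] at hp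
    rw [mem_filter, mem_Ioc]
    have h5 : ⌊3 * (R : ℝ)⌋₊ = 3 * R := by
      have : (3 * (R : ℝ)) = ((3 * R : ℕ) : ℝ) := by push_cast; ring
      rw [this, Nat.floor_natCast]
    rw [h5] at hp
    exact ⟨⟨by exact_mod_cast hp.2.2, hp.1.2⟩, hp.2.1⟩
  have h5 : (R : ℝ) / (8 * Real.log R) ≤ R / (4 * Real.log R) := by
    apply div_le_div_of_nonneg_left (by positivity) (by positivity)
    linarith
  have h6 : ((#((Icc 1 ⌊3 * (R : ℝ)⌋₊).filter (fun p : ℕ => p.Prime ∧ (R : ℝ) < p)) : ℕ) : ℝ) ≤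
      ((#((Ioc R (3 * R)).filter Nat.Prime) : ℕ) : ℝ) := Nat.cast_le.2 (card_le_card h4)
  exact h5.trans (h3.trans h6)

end Pool.Agent.Y215.CT
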