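import Mathlib

/-!
# Project CT: torsion in the class groups of imaginary quadratic fields

Statements of the steps. For odd `g` the pairs `(m, n)` with `4 m ^ g - n ^ 2 = d q ^ 2`, `d`
squarefree, give ideal classes of order `g` in the class group of `ℚ(√-d)`.
-/

set_option autoImplicit false

namespace Pool.Agent.Y215.CT

open NumberField Finset
open scoped Classical

/-! ### Algebra -/

/-- FLD: the imaginary quadratic fields with discriminant `-d`, `d = 3` modulo `4`. -/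
def S_FLD : Prop :=
  ∀ d : ℕ, Squarefree d → d % 4 = 3 →
    ∃ (K : IntermediateField ℚ ℂ) (_ : NumberField K), Module.finrank ℚ K = 2 ∧
      discr K = -(d : ℤ) ∧ (∃ x : K, (x : ℂ).im ≠ 0) ∧
      ∀ n q M : ℕ, n ^ 2 + d * q ^ 2 = 4 * M →
        ∃ α : 𝓞 K, α ^ 2 - (n : 𝓞 K) * α + (M : 𝓞 K) = 0

/-- CLS: different pairs give different classes. -/
def S_CLS : Prop :=
  ∀ (K : Type) [Field K] [NumberField K], Module.finrank ℚ K = 2 → discr K < 0 →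
    ∀ (g j : ℕ), 0 < g → 0 < j → ∀ S : Finset (ℕ × ℕ),
    (∀ x ∈ S, 1 < x.1 ∧ 0 < x.2 ∧ Nat.Coprime x.1 x.2 ∧ x.2 ^ 2 < 4 * x.1 ^ g ∧
      4 * (x.1 : ℤ) ^ 2 < |discr K| ∧
      (∃ α : 𝓞 K, α ^ 2 - (x.2 : 𝓞 K) * α + (x.1 : 𝓞 K) ^ g = 0) ∧
      (4 * (x.1 : ℤ) ^ j < |discr K| ∨
        g = 3 * j ∧ ∀ t : ℤ, (x.2 : ℤ) ≠ t ^ 3 - 3 * t * (x.1 : ℤ) ^ j)) →
    S.card ≤ Nat.card {c : ClassGroup (𝓞 K) // c ^ g = 1 ∧ c ^ j ≠ 1}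

/-- SUR: surjections onto a cyclic group of prime power order. -/
def S_SUR : Prop :=
  ∀ (A : Type) [CommGroup A] [Finite A] (p k : ℕ), p.Prime → 0 < k →
    Nat.card {c : A // c ^ p ^ k = 1 ∧ c ^ p ^ (k - 1) ≠ 1} ≤
      Nat.card {φ : (Subgroup.closure {x : A | ∃ n : ℕ, x ^ p ^ n = 1}) →*
        Multiplicative (ZMod (p ^ k)) // Function.Surjective φ}

/-! ### Elementary number theory -/

/-- RES: at least about one half of the products of two elements of a set are squares modulo a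
prime. -/
def S_RES : Prop :=
  ∀ (q : ℕ), q.Prime → q ≠ 2 → ∀ U : Finset ℕ, (∀ a ∈ U, Nat.Coprime a q) →
    U.card * (U.card - 2) ≤
      4 * ((U ×ˢ U).filter (fun x => x.1 < x.2 ∧ IsSquare ((x.1 * x.2 : ℕ) : ZMod q))).card

/-- SEL: many solutions of the congruence. -/
def S_SEL : Prop :=
  ∀ (g q a b i : ℕ), Odd g → q.Prime → q ≠ 2 → a.Prime → b.Prime → a ≠ b → a ≠ 2 → b ≠ 2 →
    a ≠ q → b ≠ q → IsSquare ((a * b : ℕ) : ZMod q) →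
    ∃ n : ℕ, 6 * q ^ 2 * i < n ∧ n ≤ 6 * q ^ 2 * (i + 1) ∧ Odd n ∧ Nat.Coprime (a * b) n ∧
      (n : ZMod (q ^ 2)) ^ 2 = 4 * ((a * b : ℕ) : ZMod (q ^ 2)) ^ g

/-- REP: bounded number of representations. -/
def S_REP : Prop :=
  ∀ (g d a b N : ℕ), 0 < d → a.Prime → b.Prime → a ≠ b → a ≠ 2 → b ≠ 2 →
    4 * N ^ 2 < (a * b) ^ g →
    ((Icc 1 N).filter (fun n => Nat.Coprime (a * b) n ∧
      ∃ q : ℕ, 0 < q ∧ n ^ 2 + d * q ^ 2 = 4 * (a * b) ^ g)).card ≤ 4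

/-- The parameters: `U`, `V` are sets of primes, `B` is the number of the blocks. -/
structure Dat (g R Q B : ℕ) (U V : Finset ℕ) : Prop where
  odd : Odd g
  hR : 2 ≤ R
  hQ : 2 ≤ Q
  hU : ∀ a ∈ U, a.Prime ∧ R < a ∧ a ≤ 3 * R
  hV : ∀ q ∈ V, q.Prime ∧ Q < q ∧ q ≤ 3 * Q
  dis : Disjoint U V
  sz : 108 * Q ^ 2 * B < R ^ g

/-- CORE: the number of the pairs `(m, n)` for which the squarefree part `d` of `4 m ^ g - n ^ 2`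
is at least `Z`. -/
def S_CORE : Prop :=
  ∀ (g R Q B Z k : ℕ) (U V : Finset ℕ), Dat g R Q B U V → 4 * (9 * R ^ 2) ^ g < Q ^ (2 * k) →
    ∃ S : Finset (ℕ × ℕ),
      V.card * (U.card * (U.card - 2)) * B ≤ 4 * k * (S.card + 2 * U.card ^ 2 * Z) ∧
      ∀ x ∈ S, 1 < x.1 ∧ x.1 < 9 * R ^ 2 ∧ 0 < x.2 ∧ Nat.Coprime x.1 x.2 ∧
        4 * x.2 ^ 2 < x.1 ^ g ∧
        ∃ d q : ℕ, Squarefree d ∧ d % 4 = 3 ∧ Z ≤ d ∧ Q < q ∧
          x.2 ^ 2 + d * q ^ 2 = 4 * x.1 ^ g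

/-- CORE from the lemmas. -/
def S_CORE' : Prop := S_RES → S_SEL → S_REP → S_CORE

/-! ### Analysis -/

/-- PRM: primes in intervals. -/
def S_PRM : Prop :=
  ∃ R0 : ℕ, ∀ R : ℕ, R0 ≤ R →
    (R : ℝ) / (8 * Real.log R) ≤ (((Ioc R (3 * R)).filter Nat.Prime).card : ℝ)

/-- ANA: choice of the parameters. -/
def S_ANA : Prop :=
  ∀ g : ℕ, Odd g → 5 ≤ g → ∃ c : ℝ, 0 < c ∧ ∃ X0 : ℝ, ∀ X : ℝ, X0 ≤ X →
    ∃ S : Finset (ℕ × ℕ), c * X ^ (1 / 2 + min (1 / 4) (2 / (g : ℝ)) : ℝ) / Real.log X ^ 5 ≤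
        (S.card : ℝ) ∧
      ∀ x ∈ S, 1 < x.1 ∧ 0 < x.2 ∧ Nat.Coprime x.1 x.2 ∧ 4 * x.2 ^ 2 < x.1 ^ g ∧
        (∀ j : ℕ, 5 * j ≤ g → 16 * (x.1 : ℝ) ^ j ≤ X ^ (9 / 20 : ℝ)) ∧
        ∃ d q : ℕ, Squarefree d ∧ d % 4 = 3 ∧ X ^ (9 / 20 : ℝ) ≤ d ∧ (d : ℝ) < X ∧
          4 * x.1 ^ 2 < d ∧ x.2 ^ 2 + d * q ^ 2 = 4 * x.1 ^ g

/-- ANA from CORE and PRM. -/
def S_ANA' : Prop := S_CORE → S_PRM → S_ANA

end Pool.Agent.Y215.CT
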