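import Pool.Agent.Y587.CT.FLD
import Pool.Agent.Y919.CT.CLS
import Pool.Agent.Y824.CT.SUR
import Pool.Agent.Y907.CT.RESSEL
import Pool.Agent.Y331.CT.REP
import Pool.Agent.Y812.CT.Core
import Pool.Agent.Y215.CT.Prm
import Pool.Agent.Y215.CT.Anb
import Pool.Agent.Y215.CT.Fin

set_option autoImplicit false

/-! # Project CT: assembly -/

namespace Pool.Agent.Y215.CT

open NumberField Finset
open scoped Classical

theorem core : S_CORE :=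
  Pool.Agent.Y812.CT.t_CORE' Pool.Agent.Y907.CT.t_RES Pool.Agent.Y907.CT.t_SEL
    Pool.Agent.Y331.CT.t_REP

theorem anb : S_ANB := t_ANB core t_PRM

/-- the sum of the nontrivial `p`-torsion over imaginary quadratic fields -/
theorem torsion_all (p : ℕ) (hp : p.Prime) (hp5 : 5 ≤ p) :
    ∃ c : ℝ, 0 < c ∧ ∃ X0 : ℝ, ∀ X : ℝ, X0 ≤ X →
        c * X ^ (1 / 2 + min (1 / 4) (2 / (p : ℝ)) : ℝ) / Real.log X ^ 5 ≤
          ∑ᶠ K ∈ ImQuad X, ((Nat.card {x : ClassGroup (𝓞 K) // x ^ p = 1} : ℝ) - 1) :=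
  torsion Pool.Agent.Y587.CT.t_FLD Pool.Agent.Y919.CT.t_CLS anb p hp hp5

/-- the sum of the numbers of surjections onto `ℤ / p ^ k` -/
theorem moments_all (p k : ℕ) (hp : p.Prime) (hp2 : p ≠ 2) (hk : 0 < k) (hpk : 5 ≤ p ^ k) :
    ∃ c : ℝ, 0 < c ∧ ∃ X0 : ℝ, ∀ X : ℝ, X0 ≤ X →
        c * X ^ (1 / 2 + min (1 / 4) (2 / ((p ^ k : ℕ) : ℝ)) : ℝ) / Real.log X ^ 5 ≤
          ∑ᶠ K ∈ ImQuad X, (Nat.card {φ : (Subgroup.closure
            {x : ClassGroup (𝓞 K) | ∃ n : ℕ, x ^ p ^ n = 1}) →* Multiplicative (ZMod (p ^ k)) //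
            Function.Surjective φ} : ℝ) :=
  moments Pool.Agent.Y587.CT.t_FLD Pool.Agent.Y919.CT.t_CLS Pool.Agent.Y824.CT.t_SUR anb p k hp hp2
    hk hpk

end Pool.Agent.Y215.CT
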