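import Pool.Agent.Y215.CT.Stm

set_option autoImplicit false
set_option maxHeartbeats 1000000

/-! # Assembly: the sum over the fields -/

namespace Pool.Agent.Y215.CT

open NumberField Finset
open scoped Classical

/-- the pairs, in the form used below -/
def S_ANB : Prop :=
  ∀ g j : ℕ, Odd g → 5 ≤ g → 0 < j → (5 * j ≤ g ∨ g = 3 * j) → ∃ c : ℝ, 0 < c ∧ ∃ X0 : ℝ,
    ∀ X : ℝ, X0 ≤ X → ∃ S : Finset (ℕ × ℕ),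
      c * X ^ (1 / 2 + min (1 / 4) (2 / (g : ℝ)) : ℝ) / Real.log X ^ 5 ≤ (S.card : ℝ) ∧
      ∀ x ∈ S, 1 < x.1 ∧ 0 < x.2 ∧ Nat.Coprime x.1 x.2 ∧ 4 * x.2 ^ 2 < x.1 ^ g ∧
        ∃ d q : ℕ, Squarefree d ∧ d % 4 = 3 ∧ (d : ℝ) < X ∧
          4 * x.1 ^ 2 < d ∧ x.2 ^ 2 + d * q ^ 2 = 4 * x.1 ^ g ∧
          (4 * x.1 ^ j < d ∨
            g = 3 * j ∧ ∀ t : ℤ, (x.2 : ℤ) ≠ t ^ 3 - 3 * t * (x.1 : ℤ) ^ j)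

theorem fields (hF : S_FLD) : ∃ K : ℕ → IntermediateField ℚ ℂ, ∀ d : ℕ, Squarefree d → d % 4 = 3 →
    ∃ (_ : NumberField (K d)), Module.finrank ℚ (K d) = 2 ∧
      discr (K d) = -(d : ℤ) ∧ (∃ x : K d, (x : ℂ).im ≠ 0) ∧
      ∀ n q M : ℕ, n ^ 2 + d * q ^ 2 = 4 * M →
        ∃ α : 𝓞 (K d), α ^ 2 - (n : 𝓞 (K d)) * α + (M : 𝓞 (K d)) = 0 := by
  have h : ∀ d : ℕ, ∃ K : IntermediateField ℚ ℂ, Squarefree d → d % 4 = 3 →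
      ∃ (_ : NumberField K), Module.finrank ℚ K = 2 ∧
      discr K = -(d : ℤ) ∧ (∃ x : K, (x : ℂ).im ≠ 0) ∧
      ∀ n q M : ℕ, n ^ 2 + d * q ^ 2 = 4 * M →
        ∃ α : 𝓞 K, α ^ 2 - (n : 𝓞 K) * α + (M : 𝓞 K) = 0 := by
    intro d
    by_cases hd : Squarefree d ∧ d % 4 = 3
    · obtain ⟨K, hK⟩ := hF d hd.1 hd.2
      exact ⟨K, fun _ _ => hK⟩
    · exact ⟨⊥, fun h1 h2 => absurd ⟨h1, h2⟩ hd⟩
  choose K hK using h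
  exact ⟨K, hK⟩

theorem mom (hF : S_FLD) (hC : S_CLS) (hA : S_ANB) :
    ∃ K : ℕ → IntermediateField ℚ ℂ, (∀ d : ℕ, Squarefree d → d % 4 = 3 →
      ∃ (_ : NumberField (K d)), Module.finrank ℚ (K d) = 2 ∧
        discr (K d) = -(d : ℤ) ∧ (∃ x : K d, (x : ℂ).im ≠ 0)) ∧
    ∀ g j : ℕ, Odd g → 5 ≤ g → 0 < j → (5 * j ≤ g ∨ g = 3 * j) → ∃ c : ℝ, 0 < c ∧ ∃ X0 : ℝ,
      ∀ X : ℝ, X0 ≤ X → ∃ T : Finset ℕ, (∀ d ∈ T, Squarefree d ∧ d % 4 = 3 ∧ (d : ℝ) < X) ∧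
        c * X ^ (1 / 2 + min (1 / 4) (2 / (g : ℝ)) : ℝ) / Real.log X ^ 5 ≤
          ((∑ d ∈ T, Nat.card {c : ClassGroup (𝓞 (K d)) // c ^ g = 1 ∧ c ^ j ≠ 1} : ℕ) : ℝ) := by
  obtain ⟨K, hK⟩ := fields hF
  refine ⟨K, fun d h1 h2 => ?_, ?_⟩
  · obtain ⟨i, a, b, c, -⟩ := hK d h1 h2
    exact ⟨i, a, b, c⟩
  intro g j hg hg5 hj hgj
  obtain ⟨c, hc, X0, hX⟩ := hA g j hg hg5 hj hgj
  refine ⟨c, hc, X0, fun X hXX => ?_⟩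
  obtain ⟨S, hS, hSx⟩ := hX X hXX
  have h : ∀ x : ℕ × ℕ, ∃ d : ℕ, x ∈ S → Squarefree d ∧ d % 4 = 3 ∧ (d : ℝ) < X ∧
          4 * x.1 ^ 2 < d ∧ (∃ q : ℕ, x.2 ^ 2 + d * q ^ 2 = 4 * x.1 ^ g) ∧
          (4 * x.1 ^ j < d ∨
            g = 3 * j ∧ ∀ t : ℤ, (x.2 : ℤ) ≠ t ^ 3 - 3 * t * (x.1 : ℤ) ^ j) := by
    intro x
    by_cases hx : x ∈ S
    · obtain ⟨-, -, -, -, d, q, h1, h2, h3, h4, h5, h6⟩ := hSx x hx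
      exact ⟨d, fun _ => ⟨h1, h2, h3, h4, ⟨q, h5⟩, h6⟩⟩
    · exact ⟨0, fun h => absurd h hx⟩
  choose D hD using h
  refine ⟨S.image D, ?_, hS.trans ?_⟩
  · intro d hd
    obtain ⟨x, hx, rfl⟩ := mem_image.1 hd
    exact ⟨(hD x hx).1, (hD x hx).2.1, (hD x hx).2.2.1⟩
  rw [card_eq_sum_card_image D S]
  refine Nat.cast_le.2 (sum_le_sum fun d hd => ?_)
  obtain ⟨x0, hx0, rfl⟩ := mem_image.1 hd
  obtain ⟨i, h1, h2, h3, h4⟩ := hK (D x0) (hD x0 hx0).1 (hD x0 hx0).2.1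
  have h5 : |discr (K (D x0))| = (D x0 : ℤ) := by
    rw [h2, abs_neg, Nat.abs_cast]
  refine hC (K (D x0)) h1 ?_ g j (by omega) hj _ ?_
  · rw [h2]
    have : 0 < D x0 := Nat.pos_of_ne_zero (hD x0 hx0).1.ne_zero
    omega
  intro x hx
  rw [mem_filter] at hx
  obtain ⟨hx, hDx⟩ := hx
  obtain ⟨a1, a2, a3, a4, -⟩ := hSx x hx
  obtain ⟨b1, b2, b3, b4, ⟨q, b5⟩, b6⟩ := hD x hx
  rw [hDx] at b1 b2 b3 b4 b5 b6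
  refine ⟨a1, a2, a3, by omega, ?_, ?_, ?_⟩
  · rw [h5]
    exact_mod_cast b4
  · obtain ⟨α, hα⟩ := h4 x.2 q (x.1 ^ g) b5
    refine ⟨α, ?_⟩
    rw [Nat.cast_pow] at hα
    exact hα
  · rw [h5]
    rcases b6 with b6 | b6
    · left
      exact_mod_cast b6
    · right
      exact b6

end Pool.Agent.Y215.CT
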