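import Pool.Agent.Y726.CT.ANA
import Pool.Agent.Y215.CT.Asm

/-!
# Project CT: the pairs
-/

set_option autoImplicit false

namespace Pool.Agent.Y215.CT

open Filter Finset Pool.Agent.Y726.CT
open scoped Classical

/-- The proof of `Pool.Agent.Y726.CT.t_ANA'` (helper726), with more information on the pairs. -/
theorem ana2 (hcore : S_CORE) (hprm : S_PRM) (g : ℕ) (hodd : Odd g) (hg : 5 ≤ g) :
    ∃ c : ℝ, 0 < c ∧ ∃ X0 : ℝ, ∀ X : ℝ, X0 ≤ X →
    ∃ (R : ℕ) (S : Finset (ℕ × ℕ)), (R : ℝ) ^ g ≤ X ∧ 1 ≤ Real.log X ∧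
      c * (R : ℝ) ^ 2 * Real.sqrt X / Real.log X ^ 3 ≤ (S.card : ℝ) ∧
      c * X ^ (1 / 2 + min (1 / 4) (2 / (g : ℝ)) : ℝ) / Real.log X ^ 5 ≤ (S.card : ℝ) ∧
      ∀ x ∈ S, 1 < x.1 ∧ x.1 < 9 * R ^ 2 ∧ 0 < x.2 ∧ Nat.Coprime x.1 x.2 ∧ 4 * x.2 ^ 2 < x.1 ^ g ∧
        (∀ j : ℕ, 5 * j ≤ g → 16 * (x.1 : ℝ) ^ j ≤ X ^ (9 / 20 : ℝ)) ∧
        ∃ d q : ℕ, Squarefree d ∧ d % 4 = 3 ∧ X ^ (9 / 20 : ℝ) ≤ d ∧ (d : ℝ) < X ∧
          4 * x.1 ^ 2 < d ∧ x.2 ^ 2 + d * q ^ 2 = 4 * x.1 ^ g := by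
  obtain ⟨R0, hPR⟩ := hprm
  have hc2 := c2_pos g
  refine ⟨c2 g / (160 * 8100 * 256), by positivity, ?_⟩
  obtain ⟨X0, hX0⟩ := (eventually_atTop.1 (big g hg R0))
  refine ⟨X0, fun X hX => ?_⟩
  have h := hX0 X hX
  obtain ⟨R, Q, B, P⟩ := par hg h
  have hg' : (5 : ℝ) ≤ g := by exact_mod_cast hg
  have hg0 : (0 : ℝ) < g := by linarith
  have hXp : 0 < X := by linarith [h.X1]
  have hX1 := h.X1
  have hl0 : 0 < Real.log X := by linarith [h.l8]
  have hl1 : 1 ≤ Real.log X := by linarith [h.l8]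
  set ℓ := Real.log X with hℓ
  set s := Real.sqrt X with hs
  have hs0 : 0 < s := Real.sqrt_pos.2 hXp
  have hss : s * s = X := Real.mul_self_sqrt hXp.le
  have hR2 := P.R2
  have hR0 : (0 : ℝ) < R := by positivity
  have hR1 : (1 : ℝ) < R := by exact_mod_cast hR2
  obtain ⟨G, hG⟩ : ∃ G : ℝ, G = 2 * 3 ^ g * (R : ℝ) ^ g / s := ⟨_, rfl⟩
  have hGQ : G < Q := by rw [hG]; exact P.GQ
  have hQG : (Q : ℝ) ≤ 2 * G := by rw [hG]; exact P.QG
  have hG1 : X ^ (1 / 9 : ℝ) ≤ G := by rw [hG]; exact P.G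
  have hG2 : 2 ≤ G := h.q2.trans hG1
  have hQ1 : (1 : ℝ) < Q := by linarith
  have hQ0 : (0 : ℝ) < Q := by linarith
  have hQ2 : 2 ≤ Q := by
    have : (2 : ℝ) < Q := by linarith
    exact_mod_cast this.le
  set U := (Ioc R (3 * R)).filter Nat.Prime with hU
  set V := (Ioc Q (3 * Q)).filter Nat.Prime with hV
  have hRR0 : R0 ≤ R := by
    have h1 := h.r0
    have h2 := P.Rge
    have : (R0 : ℝ) ≤ R := by linarith
    exact_mod_cast this
  have hQR0 : R0 ≤ Q := by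
    have : (R0 : ℝ) ≤ Q := by linarith [h.q0]
    exact_mod_cast this
  have hRX' : (R : ℝ) ≤ X := by
    have h1 : (R : ℝ) ≤ X ^ (1 / (g : ℝ)) := by linarith [P.R1]
    have h2 : X ^ (1 / (g : ℝ)) ≤ X ^ (1 : ℝ) := by
      apply Real.rpow_le_rpow_of_exponent_le hX1
      rw [div_le_one hg0]; linarith
    rw [Real.rpow_one] at h2
    linarith
  have hUc : (R : ℝ) / (8 * ℓ) ≤ U.card := by
    refine le_trans ?_ (hPR R hRR0)
    have hl : 0 < Real.log R := Real.log_pos hR1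
    have : Real.log R ≤ ℓ := Real.log_le_log hR0 hRX'
    gcongr
  have hVc : (Q : ℝ) / (8 * ℓ) ≤ V.card := by
    refine le_trans ?_ (hPR Q hQR0)
    have hl : 0 < Real.log Q := Real.log_pos hQ1
    have : Real.log Q ≤ ℓ := Real.log_le_log hQ0 P.QX
    gcongr
  have hu4 : (4 : ℝ) ≤ U.card := by
    refine le_trans ?_ hUc
    rw [le_div_iff₀ (by positivity)]
    have h1 := h.rl
    have h2 := P.Rge
    linarith
  have hD : Dat g R Q B U V := by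
    refine ⟨hodd, hR2, hQ2, ?_, ?_, ?_, ?_⟩
    · intro a ha
      rw [hU, mem_filter, mem_Ioc] at ha
      exact ⟨ha.2, ha.1.1, ha.1.2⟩
    · intro a ha
      rw [hV, mem_filter, mem_Ioc] at ha
      exact ⟨ha.2, ha.1.1, ha.1.2⟩
    · rw [Finset.disjoint_left]
      intro a ha hb
      rw [hU, mem_filter, mem_Ioc] at ha
      rw [hV, mem_filter, mem_Ioc] at hb
      have := disj hodd hg h P
      omega
    · have h1 := P.Bup
      have h2 : 0 < R ^ g := by positivity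
      have h3 : 108 * Q ^ 2 * B * 2 ≤ R ^ g := by
        calc 108 * Q ^ 2 * B * 2 = 216 * Q ^ 2 * B := by ring
          _ ≤ _ := h1
      omega
  have hk : 4 * (9 * R ^ 2) ^ g < Q ^ (2 * 10) := by
    have h1 : (4 * (9 * (R : ℝ) ^ 2) ^ g) < (Q : ℝ) ^ (2 * 10) := by
      have h2 : (R : ℝ) ^ g ≤ X := by
        refine P.RX.trans (div_le_self hXp.le (one_le_pow₀ (by norm_num)))
      calc 4 * (9 * (R : ℝ) ^ 2) ^ g = 4 * 9 ^ g * ((R : ℝ) ^ g) ^ 2 := by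
            rw [mul_pow, ← pow_mul, ← pow_mul, mul_comm 2 g]; ring
        _ ≤ 4 * 9 ^ g * X ^ 2 := by gcongr
        _ < X ^ (2 / 9 : ℝ) * X ^ 2 := by
            have := h.h4
            gcongr
        _ = (X ^ (1 / 9 : ℝ)) ^ (2 * 10) := by
            rw [← Real.rpow_natCast (X ^ (1 / 9 : ℝ)), ← Real.rpow_mul hXp.le,
              ← Real.rpow_natCast X 2, ← Real.rpow_add hXp]
            norm_num
        _ ≤ (Q : ℝ) ^ (2 * 10) := by
            have : X ^ (1 / 9 : ℝ) ≤ Q := by linarith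
            gcongr
    exact_mod_cast h1
  obtain ⟨Z, hZ⟩ : ∃ Z : ℕ, Z = V.card * B / 320 := ⟨_, rfl⟩
  obtain ⟨S, hS, hprop⟩ := hcore g R Q B Z 10 U V hD hk
  obtain ⟨W, hW⟩ : ∃ W : ℝ, W = V.card * B := ⟨_, rfl⟩
  have hW0 : 0 ≤ W := by rw [hW]; positivity
  have hWlo : c2 g * s / ℓ ≤ W := by
    have h1 := P.Blo
    have hB0 : (0 : ℝ) ≤ B := by positivity
    have h2 : (R : ℝ) ^ g / (432 * (Q : ℝ) ^ 2) ≤ B := by
      rw [div_le_iff₀ (by positivity)]; linarith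
    calc c2 g * s / ℓ = (R : ℝ) ^ g / (3456 * (2 * G) * ℓ) := by
          rw [hG]; unfold c2; field_simp; norm_num
      _ ≤ (R : ℝ) ^ g / (3456 * Q * ℓ) := by gcongr
      _ = (Q : ℝ) / (8 * ℓ) * ((R : ℝ) ^ g / (432 * (Q : ℝ) ^ 2)) := by field_simp; norm_num
      _ ≤ V.card * B := by gcongr
      _ = W := hW.symm
  have hZup : 320 * (Z : ℝ) ≤ W := by
    have : 320 * Z ≤ V.card * B := by rw [hZ]; exact Nat.mul_div_le _ _
    rw [hW]; exact_mod_cast this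
  have hZlo : W ≤ 320 * (Z + 1) := by
    have h1 : V.card * B ≤ 320 * (Z + 1) := by rw [hZ]; omega
    rw [hW]; exact_mod_cast h1
  -- the lower bound for `Z`
  have hX920 : 1 ≤ X ^ (9 / 20 : ℝ) := Real.one_le_rpow hX1 (by norm_num)
  have h6 := h.h6
  have hhalf : c2 g * s / ℓ / 320 = 2 * (c2 g * s / (640 * ℓ)) := by field_simp; norm_num
  have hZ1 : c2 g * s / (640 * ℓ) ≤ Z := by
    have h1 : c2 g * s / ℓ / 320 ≤ Z + 1 := by
      rw [div_le_iff₀ (by norm_num)]; linarith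
    rw [hhalf] at h1
    linarith
  have hZ2 : X ^ (9 / 20 : ℝ) ≤ Z := by linarith
  have hZ3 : 324 * (R : ℝ) ^ 4 ≤ Z := by
    refine le_trans ?_ hZ1
    have h7 := h.h7
    rw [div_le_iff₀ hc2] at h7
    have h8 := P.R4
    rw [le_div_iff₀ (by positivity)]
    have h9 : 324 * (R : ℝ) ^ 4 * (640 * ℓ) * ℓ ^ 3 ≤ c2 g * s * ℓ ^ 3 := by
      calc 324 * (R : ℝ) ^ 4 * (640 * ℓ) * ℓ ^ 3
          = 324 * 640 * ((R : ℝ) ^ 4 * ℓ ^ 4) := by ring
        _ ≤ 324 * 640 * s := by gcongr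
        _ ≤ ℓ ^ 3 * c2 g * s := by gcongr
        _ = _ := by ring
    exact le_of_mul_le_mul_right h9 (by positivity)
  have hW3 : W * (U.card : ℝ) ^ 2 ≤ 160 * S.card := by
    have h1 : (V.card : ℝ) * (U.card * ((U.card : ℝ) - 2)) * B ≤
        40 * (S.card + 2 * (U.card : ℝ) ^ 2 * Z) := by
      have h2 : 2 ≤ U.card := by
        have : (2 : ℝ) ≤ U.card := by linarith
        exact_mod_cast this
      have h3 : ((V.card * (U.card * (U.card - 2)) * B : ℕ) : ℝ) ≤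
        ((4 * 10 * (S.card + 2 * U.card ^ 2 * Z) : ℕ) : ℝ) := by exact_mod_cast hS
      push_cast [Nat.cast_sub h2] at h3
      linarith
    obtain ⟨u, hu⟩ : ∃ u : ℝ, u = U.card := ⟨_, rfl⟩
    rw [← hu] at h1 hu4 hUc ⊢
    have h2 : u ^ 2 / 2 ≤ u * (u - 2) := by nlinarith
    have h3 : W * (u ^ 2 / 2) ≤ 40 * S.card + u ^ 2 * W / 4 := by
      calc W * (u ^ 2 / 2) ≤ W * (u * (u - 2)) := by gcongr
        _ = V.card * (u * (u - 2)) * B := by rw [hW]; ring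
        _ ≤ 40 * (S.card + 2 * u ^ 2 * Z) := h1
        _ = 40 * S.card + u ^ 2 * (320 * Z) / 4 := by ring
        _ ≤ _ := by gcongr
    nlinarith
  have hRXX : (R : ℝ) ^ g ≤ X :=
    P.RX.trans (div_le_self hXp.le (one_le_pow₀ (by norm_num)))
  refine ⟨R, S, hRXX, hl1, ?_, ?_, ?_⟩
  · have h1 : c2 g * s / ℓ * ((R : ℝ) / (8 * ℓ)) ^ 2 ≤ W * (U.card : ℝ) ^ 2 := by gcongr
    have h2 : c2 g / (160 * 8100 * 256) * (R : ℝ) ^ 2 * s / ℓ ^ 3 ≤
        (c2 g * s / ℓ * ((R : ℝ) / (8 * ℓ)) ^ 2) / 160 := by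
      have e : (c2 g * s / ℓ * ((R : ℝ) / (8 * ℓ)) ^ 2) / 160 =
          c2 g * (R : ℝ) ^ 2 * s / ℓ ^ 3 / (64 * 160) := by
        field_simp
        norm_num
      have e2 : c2 g / (160 * 8100 * 256) * (R : ℝ) ^ 2 * s / ℓ ^ 3 =
          c2 g * (R : ℝ) ^ 2 * s / ℓ ^ 3 / (160 * 8100 * 256) := by ring
      rw [e, e2]
      apply div_le_div_of_nonneg_left (by positivity) (by norm_num) (by norm_num)
    linarith
  · obtain ⟨u, hu⟩ : ∃ u : ℝ, u = U.card := ⟨_, rfl⟩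
    rw [← hu] at hW3 hu4 hUc
    have h4 := hW3
    -- the lower bound for `rho`
    have hmu0 : 0 ≤ min (1 / 4) (2 / (g : ℝ)) := by positivity
    have hρ : X ^ (min (1 / 4) (2 / (g : ℝ))) ≤ 8100 * ℓ ^ 2 * rho g X ^ 2 := by
      have hl2 : 1 ≤ ℓ ^ 2 := one_le_pow₀ hl1
      rcases le_total (X ^ (1 / (g : ℝ)) / 90) (X ^ (1 / 8 : ℝ) / Real.log X) with hh | hh
      · have e : rho g X = X ^ (1 / (g : ℝ)) / 90 := min_eq_left hh
        rw [e]
        calc X ^ (min (1 / 4) (2 / (g : ℝ))) ≤ X ^ (2 / (g : ℝ)) :=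
              Real.rpow_le_rpow_of_exponent_le hX1 (min_le_right _ _)
          _ = (X ^ (1 / (g : ℝ))) ^ 2 := by
              rw [← Real.rpow_natCast (X ^ (1 / (g : ℝ))), ← Real.rpow_mul hXp.le]
              congr 1; push_cast; ring
          _ = 1 * (X ^ (1 / (g : ℝ))) ^ 2 := (one_mul _).symm
          _ ≤ ℓ ^ 2 * (X ^ (1 / (g : ℝ))) ^ 2 := by gcongr
          _ = _ := by ring
      · have e : rho g X = X ^ (1 / 8 : ℝ) / ℓ := min_eq_right hh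
        rw [e]
        calc X ^ (min (1 / 4) (2 / (g : ℝ))) ≤ X ^ (1 / 4 : ℝ) :=
              Real.rpow_le_rpow_of_exponent_le hX1 (min_le_left _ _)
          _ = (X ^ (1 / 8 : ℝ)) ^ 2 := by
              rw [← Real.rpow_natCast (X ^ (1 / 8 : ℝ)), ← Real.rpow_mul hXp.le]
              congr 1; norm_num
          _ ≤ 8100 * (X ^ (1 / 8 : ℝ)) ^ 2 := by
              have : 0 ≤ (X ^ (1 / 8 : ℝ)) ^ 2 := by positivity
              linarith
          _ = _ := by field_simp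
    have hu2 : rho g X / (16 * ℓ) ≤ u := by
      refine le_trans ?_ hUc
      rw [div_le_div_iff₀ (by positivity) (by positivity)]
      have := P.Rge
      nlinarith
    have hr0 : 0 ≤ rho g X := by linarith [h.r2]
    have h5 : rho g X ^ 2 / (256 * ℓ ^ 2) ≤ u ^ 2 := by
      calc rho g X ^ 2 / (256 * ℓ ^ 2) = (rho g X / (16 * ℓ)) ^ 2 := by
            rw [div_pow, mul_pow]; norm_num
        _ ≤ u ^ 2 := by gcongr
    have h6' : X ^ (1 / 2 + min (1 / 4) (2 / (g : ℝ)) : ℝ) =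
        s * X ^ (min (1 / 4) (2 / (g : ℝ))) := by
      rw [Real.rpow_add hXp, hs, Real.sqrt_eq_rpow]
    rw [h6']
    calc c2 g / (160 * 8100 * 256) * (s * X ^ (min (1 / 4) (2 / (g : ℝ)))) / ℓ ^ 5
        ≤ c2 g / (160 * 8100 * 256) * (s * (8100 * ℓ ^ 2 * rho g X ^ 2)) / ℓ ^ 5 := by gcongr
      _ = (c2 g * s / ℓ) * (rho g X ^ 2 / (256 * ℓ ^ 2)) / 160 := by field_simp
      _ ≤ W * u ^ 2 / 160 := by gcongr
      _ ≤ S.card := by linarith
  · intro x hx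
    obtain ⟨p1, p2, p3, p4, p5, d, q, d1, d2, d3, d4, d5⟩ := hprop x hx
    have px : (x.1 : ℝ) < 9 * (R : ℝ) ^ 2 := by exact_mod_cast p2
    have hd3 : (Z : ℝ) ≤ d := by exact_mod_cast d3
    have hQq : (Q : ℝ) < q := by exact_mod_cast d4
    refine ⟨p1, p2, p3, p4, p5, ?_, d, q, d1, d2, hZ2.trans hd3, ?_, ?_, d5⟩
    · intro j hj
      have hj' : (5 : ℝ) * j ≤ g := by exact_mod_cast hj
      have q1 : (x.1 : ℝ) ≤ X ^ (2 / (g : ℝ)) := by
        have h1 := P.R1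
        have h2 : (90 * (R : ℝ)) ^ 2 ≤ (X ^ (1 / (g : ℝ))) ^ 2 := by gcongr
        have h3 : (X ^ (1 / (g : ℝ))) ^ 2 = X ^ (2 / (g : ℝ)) := by
          rw [← Real.rpow_natCast (X ^ (1 / (g : ℝ))), ← Real.rpow_mul hXp.le]
          congr 1; push_cast; ring
        rw [h3] at h2
        nlinarith [sq_nonneg (R : ℝ)]
      have q2 : (x.1 : ℝ) ^ j ≤ X ^ (2 / 5 : ℝ) := by
        calc (x.1 : ℝ) ^ j ≤ (X ^ (2 / (g : ℝ))) ^ j := by gcongr
          _ = X ^ (2 / (g : ℝ) * j) := by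
              rw [← Real.rpow_natCast (X ^ (2 / (g : ℝ))), ← Real.rpow_mul hXp.le]
          _ ≤ X ^ (2 / 5 : ℝ) := by
              apply Real.rpow_le_rpow_of_exponent_le hX1
              rw [div_mul_eq_mul_div, div_le_div_iff₀ hg0 (by norm_num)]
              linarith
      calc 16 * (x.1 : ℝ) ^ j ≤ X ^ (1 / 20 : ℝ) * X ^ (2 / 5 : ℝ) := by
            have := h.h8
            gcongr
        _ = _ := by rw [← Real.rpow_add hXp]; norm_num
    · -- `d < X`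
      have e1 : (d : ℝ) * (q : ℝ) ^ 2 ≤ 4 * (x.1 : ℝ) ^ g := by
        have : (x.2 : ℝ) ^ 2 + d * (q : ℝ) ^ 2 = 4 * (x.1 : ℝ) ^ g := by exact_mod_cast d5
        nlinarith [sq_nonneg (x.2 : ℝ)]
      have e2 : 4 * (x.1 : ℝ) ^ g ≤ 4 * (9 * (R : ℝ) ^ 2) ^ g := by gcongr
      have e3 : 4 * (9 * (R : ℝ) ^ 2) ^ g = G ^ 2 * X := by
        rw [hG, ← hss, mul_pow, ← pow_mul, show (9 : ℝ) ^ g = 3 ^ g * 3 ^ g by
          rw [← mul_pow]; norm_num, mul_comm 2 g, pow_mul]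
        field_simp
        ring
      have e4 : G ^ 2 * X < (q : ℝ) ^ 2 * X := by
        have : G < q := hGQ.trans hQq
        gcongr
      have hq0 : (0 : ℝ) < (q : ℝ) ^ 2 := by
        have : (0 : ℝ) < q := by linarith
        positivity
      have e5 : (d : ℝ) * (q : ℝ) ^ 2 < X * (q : ℝ) ^ 2 := by
        rw [e3] at e2; linarith
      exact lt_of_mul_lt_mul_right e5 hq0.le
    · have e1 : 4 * (x.1 : ℝ) ^ 2 < d := by
        have hx0 : (0 : ℝ) ≤ x.1 := by positivity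
        calc 4 * (x.1 : ℝ) ^ 2 < 4 * (9 * (R : ℝ) ^ 2) ^ 2 := by gcongr
          _ = 324 * (R : ℝ) ^ 4 := by ring
          _ ≤ Z := hZ3
          _ ≤ d := hd3
      exact_mod_cast e1

end Pool.Agent.Y215.CT
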